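import Pool.Agent.W558.WD.Stms

set_option autoImplicit false
set_option linter.unusedVariables false
set_option linter.unusedSectionVars false

universe u

open Pool.Agent.W558

namespace Pool.Agent.W150.WD

section

variable {k E : Type u} [Field k] [Field E] [Algebra k E] {O : Subalgebra k E}
  {x y z w a b d : E} {j j' : ℕ}

lemma par_symm {u v : E} (h : Par O u v) : Par O v u where
  pu := h.pv
  pv := h.pu
  u0 := h.v0
  v0 := h.u0
  gen := fun x hx => by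
    obtain ⟨α, hα, β, hβ, h1⟩ := h.gen x hx
    exact ⟨β, hβ, α, hα, by rw [h1]; ring⟩
  reg := fun b hb c hc h1 => by
    obtain ⟨d, hd, h2⟩ := h.reg c hc b hb h1.symm
    refine ⟨d, hd, ?_⟩
    have := h.u0
    rw [h2] at h1
    have h3 : u * (v * d) = u * c := by linear_combination h1
    exact (mul_left_cancel₀ this h3).symm

lemma ox_mem (hx : x ∈ O) (hy : y ∈ O) (h : Ox O x y j z) : z ∈ O := by
  obtain ⟨α, hα, β, hβ, rfl⟩ := h
  exact O.add_mem (O.mul_mem hα hx) (O.mul_mem hβ (O.pow_mem hy j))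

lemma ox_mono (hy : y ∈ O) (hjj : j' ≤ j) (h : Ox O x y j z) : Ox O x y j' z := by
  obtain ⟨α, hα, β, hβ, rfl⟩ := h
  refine ⟨α, hα, β * y ^ (j - j'), O.mul_mem hβ (O.pow_mem hy _), ?_⟩
  rw [mul_assoc, ← pow_add, Nat.sub_add_cancel hjj]

lemma ox_of_mul (hd : d ∈ O) : Ox O x y j (x * d) := ⟨d, hd, 0, O.zero_mem, by ring⟩

lemma ox_lin (h1 : Ox O x y j z) (h2 : Ox O x y j w) (ha : a ∈ O) (hb : b ∈ O) :
    Ox O x y j (a * z + b * w) := by
  obtain ⟨α, hα, β, hβ, rfl⟩ := h1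
  obtain ⟨α', hα', β', hβ', rfl⟩ := h2
  exact ⟨a * α + b * α', O.add_mem (O.mul_mem ha hα) (O.mul_mem hb hα'),
    a * β + b * β', O.add_mem (O.mul_mem ha hβ) (O.mul_mem hb hβ'), by ring⟩

lemma reg_pow (h : Par O x y) {b c : E} {n : ℕ} (hb : b ∈ O) (hc : c ∈ O)
    (h1 : x * b = y ^ n * c) : ∃ d ∈ O, c = x * d := by
  induction n generalizing b with
  | zero => exact ⟨b, hb, by rw [h1]; ring⟩
  | succ n ih =>
    obtain ⟨d, hd, h2⟩ := h.reg b hb (y ^ n * c) (O.mul_mem (O.pow_mem h.pv.1 n) hc)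
      (by rw [h1]; ring)
    exact ih hd h2.symm

lemma div_aux (h : Par O x y) {Z w : E} {e g : ℤ} (hZ : Z ∈ O) (hw : w ∈ O) (he : 0 < e)
    (h1 : w = Z * (x ^ e * y ^ g)) : ∃ d ∈ O, w = x * d := by
  have hx0 := h.u0
  have hy0 := h.v0
  obtain ⟨a, rfl⟩ : ∃ a : ℕ, e = a + 1 := ⟨(e - 1).toNat, by omega⟩
  rcases le_or_gt 0 g with hg | hg
  · lift g to ℕ using hg
    refine ⟨Z * (x ^ a * y ^ g), O.mul_mem hZ (O.mul_mem (O.pow_mem h.pu.1 a)
      (O.pow_mem h.pv.1 g)), ?_⟩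
    rw [h1, zpow_add₀ hx0, zpow_natCast, zpow_natCast, zpow_one]
    ring
  · obtain ⟨n, rfl⟩ : ∃ n : ℕ, g = -(n : ℤ) := ⟨(-g).toNat, by omega⟩
    refine reg_pow h (b := Z * x ^ a) (n := n) (O.mul_mem hZ (O.pow_mem h.pu.1 a)) hw ?_
    rw [h1, zpow_add₀ hx0, zpow_neg, zpow_natCast, zpow_natCast, zpow_one]
    have := pow_ne_zero n hy0
    field_simp

lemma core_one {P R : E} (h : Par O x y) (hP : P ∈ O) (hR : R ∈ O)
    {e g : ℤ} {c : ℕ}
    (hne : ¬ ((∃ d ∈ O, P = x * d) ∧ ∃ d ∈ O, R = x * d))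
    (h1 : ∀ α ∈ O, ∀ β ∈ O, Ox O x y c ((α * P + β * R) * (x ^ e * y ^ g)))
    (h2 : ∃ α ∈ O, ∃ β ∈ O, ¬ Ox O x y (c + 1) ((α * P + β * R) * (x ^ e * y ^ g))) :
    e = 0 := by
  have hx0 := h.u0
  have hy0 := h.v0
  rcases lt_trichotomy e 0 with he | he | he
  · exfalso
    apply hne
    have key : ∀ Z ∈ O, Ox O x y c (Z * (x ^ e * y ^ g)) → ∃ d ∈ O, Z = x * d := by
      intro Z hZ h3
      refine div_aux h (Z := Z * (x ^ e * y ^ g)) (e := -e) (g := -g)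
        (ox_mem h.pu.1 h.pv.1 h3) hZ (by omega) ?_
      rw [mul_assoc, mul_mul_mul_comm, ← zpow_add₀ hx0, ← zpow_add₀ hy0, add_neg_cancel,
        add_neg_cancel, zpow_zero, zpow_zero, mul_one, mul_one]
    constructor
    · refine key P hP ?_
      have := h1 1 O.one_mem 0 O.zero_mem
      rwa [one_mul, zero_mul, add_zero] at this
    · refine key R hR ?_
      have := h1 0 O.zero_mem 1 O.one_mem
      rwa [one_mul, zero_mul, zero_add] at this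
  · exact he
  · obtain ⟨α, hα, β, hβ, h3⟩ := h2
    exfalso
    apply h3
    obtain ⟨d, hd, h4⟩ := div_aux h (Z := α * P + β * R)
      (O.add_mem (O.mul_mem hα hP) (O.mul_mem hβ hR))
      (ox_mem h.pu.1 h.pv.1 (h1 α hα β hβ)) he rfl
    rw [h4]
    exact ox_of_mul hd

lemma core {s f P R : E} {Δ1 Δ2 : Derivation k E E} {m' n' M N : ℤ} {c' d' : ℕ}
    (h : Par O y s) (hP : P ∈ O) (hR : R ∈ O)
    (hth : ∀ θ, θ ∈ Th O (uo O y ∪ uo O s) ↔ ∃ α ∈ O, ∃ β ∈ O, θ = α • Δ1 + β • Δ2)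
    (h1 : Δ1 f = y ^ M * s ^ N * P) (h2 : Δ2 f = y ^ M * s ^ N * R)
    (hne1 : ¬ ((∃ d ∈ O, P = y * d) ∧ ∃ d ∈ O, R = y * d))
    (hne2 : ¬ ((∃ d ∈ O, P = s * d) ∧ ∃ d ∈ O, R = s * d))
    (hd : Dat2 O y s f m' n' c' d') :
    m' = M ∧ n' = N ∧ Ox O y s c' P ∧ Ox O y s c' R ∧ Ox O s y d' P ∧ Ox O s y d' R := by
  obtain ⟨hd1, ⟨θ1, hθ1, hd2⟩, ⟨θ2, hθ2, hd3⟩⟩ := hd
  have hy0 := h.u0
  have hs0 := h.v0
  have ev : ∀ α β : E, (α • Δ1 + β • Δ2) f * (y ^ (-m') * s ^ (-n')) =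
      (α * P + β * R) * (y ^ (M - m') * s ^ (N - n')) := by
    intro α β
    rw [Derivation.add_apply, Derivation.smul_apply, Derivation.smul_apply, h1, h2,
      smul_eq_mul, smul_eq_mul, zpow_sub₀ hy0, zpow_sub₀ hs0, zpow_neg, zpow_neg]
    ring
  have all : ∀ α ∈ O, ∀ β ∈ O,
      Ox O y s c' ((α * P + β * R) * (y ^ (M - m') * s ^ (N - n'))) ∧
      Ox O s y d' ((α * P + β * R) * (y ^ (M - m') * s ^ (N - n'))) := by
    intro α hα β hβ
    have := hd1 (α • Δ1 + β • Δ2) ((hth _).2 ⟨α, hα, β, hβ, rfl⟩)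
    rwa [ev] at this
  have e1 : M - m' = 0 := by
    refine core_one h hP hR hne1 (fun α hα β hβ => (all α hα β hβ).1) ?_
    obtain ⟨α, hα, β, hβ, rfl⟩ := (hth _).1 hθ1
    rw [ev] at hd2
    exact ⟨α, hα, β, hβ, hd2⟩
  have e2 : N - n' = 0 := by
    refine core_one (g := M - m') (c := d') (par_symm h) hP hR hne2 (fun α hα β hβ => ?_) ?_
    · have := (all α hα β hβ).2
      rwa [mul_comm (y ^ (M - m'))] at this
    · obtain ⟨α, hα, β, hβ, rfl⟩ := (hth _).1 hθ2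
      rw [ev, mul_comm (y ^ (M - m'))] at hd3
      exact ⟨α, hα, β, hβ, hd3⟩
  rw [e1, e2] at all
  simp only [zpow_zero, mul_one] at all
  have a1 := all 1 O.one_mem 0 O.zero_mem
  have a2 := all 0 O.zero_mem 1 O.one_mem
  rw [one_mul, zero_mul, add_zero] at a1
  rw [one_mul, zero_mul, zero_add] at a2
  exact ⟨by omega, by omega, a1.1, a2.1, a1.2, a2.2⟩

lemma md_div (hy : y ≠ 0) {c : ℕ → E} {l : ℕ} {Z : E}
    (h : Z = ∑ j ∈ Finset.range (l + 1), c j * x ^ (l - j) * y ^ j) :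
    Z * (y ^ l)⁻¹ = ∑ j ∈ Finset.range (l + 1), c (l - j) * (x / y) ^ j := by
  rw [h, ← Finset.sum_range_reflect, Finset.sum_mul]
  refine Finset.sum_congr rfl fun j hj => ?_
  have hj : j ≤ l := Nat.lt_succ_iff.1 (Finset.mem_range.1 hj)
  have e1 : l + 1 - 1 - j = l - j := by omega
  have e2 : l - (l - j) = j := by omega
  rw [e1, e2, div_pow]
  have h1 := pow_ne_zero l hy
  have h2 := pow_ne_zero j hy
  have h3 : y ^ l = y ^ (l - j) * y ^ j := by rw [← pow_add, Nat.sub_add_cancel hj]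
  have h4 := pow_ne_zero (l - j) hy
  rw [h3]
  field_simp

lemma poly_mem {c : ℕ → E} {s : E} {l : ℕ} (hc : ∀ j, c j ∈ O) (hs : s ∈ O) :
    ∑ j ∈ Finset.range (l + 1), c (l - j) * s ^ j ∈ O :=
  O.sum_mem fun j _ => O.mul_mem (hc _) (O.pow_mem hs j)

lemma md_zero (l : ℕ) : Md O x y l 0 :=
  ⟨fun _ => 0, fun _ => O.zero_mem, by simp⟩

lemma od_pos {l : ℕ} (h : Od O x y l z) (hz : NU O z) : 1 ≤ l := by
  by_contra h0
  have h0 : l = 0 := by omega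
  subst h0
  obtain ⟨c, hc, ⟨j, hj, h1⟩, h2⟩ := h
  have h3 : j = 0 := by omega
  subst h3
  apply h1
  have : z = c 0 := by
    rw [h2]
    simp
  rw [← this]
  exact hz

end

theorem main (hder : WD_der.{u}) (hthb : WD_thb.{u}) (hod : WD_od.{u}) (hqp : WD_qp.{u})
    (hqs : WD_qs.{u}) (hinv : WD_inv.{u}) : WD_f2.{u} := by
  intro k E _ _ _ _ htr O O' x y f m m' n' c c' d' hO hO' hpar hquad hpar' hdat hc hdat2
  obtain ⟨D1, D2, hD1, hD2, h1x, h1y, h2x, h2y, hD⟩ := hder k E htr O x y hO hpar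
  obtain ⟨ht1, -, ht⟩ := hthb k E htr O x y D1 D2 hO hpar hD1 hD2 h1x h1y h2x h2y hD
  have ht2 := (ht O' hO').2.1 hquad
  have hloc : ∀ a b, NU O a → NU O b → NU O (a + b) := by
    obtain ⟨A, -, hA⟩ := hO
    exact hA.loc
  have hloc' : ∀ a b, NU O' a → NU O' b → NU O' (a + b) := by
    obtain ⟨A, -, hA⟩ := hO'
    exact hA.loc
  have hx0 := hpar.u0
  have hy0 := hpar.v0
  have hs0 : x / y ≠ 0 := hpar'.v0
  have hxO := hpar.pu.1
  have hyO := hpar.pv.1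
  have hyO' := hpar'.pu.1
  have hsO' := hpar'.pv.1
  obtain ⟨F, hF⟩ : ∃ F : E, F = x * D1 f * x ^ (-m) := ⟨_, rfl⟩
  obtain ⟨G, hG⟩ : ∃ G : E, G = D2 f * x ^ (-m) := ⟨_, rfl⟩
  have oxF : Ox O x y c F := by
    have := hdat.1 (x • D1) ((ht1 _).2 ⟨1, O.one_mem, 0, O.zero_mem, by simp⟩)
    rw [Derivation.smul_apply, smul_eq_mul, ← hF] at this
    exact this
  have oxG : Ox O x y c G := by
    have := hdat.1 D2 ((ht1 _).2 ⟨0, O.zero_mem, 1, O.one_mem, by simp⟩)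
    rw [← hG] at this
    exact this
  have hFG : ¬ (Ox O x y (c + 1) F ∧ Ox O x y (c + 1) G) := by
    rintro ⟨h1, h2⟩
    obtain ⟨θ, hθ, h3⟩ := hdat.2
    obtain ⟨α, hα, β, hβ, rfl⟩ := (ht1 _).1 hθ
    apply h3
    have := ox_lin h1 h2 hα hβ
    convert this using 1
    rw [Derivation.add_apply, Derivation.smul_apply, Derivation.smul_apply,
      Derivation.smul_apply, smul_eq_mul, smul_eq_mul, smul_eq_mul, hF, hG]
    ring
  have hFO := ox_mem hxO hyO oxF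
  have hGO := ox_mem hxO hyO oxG
  have nu_of : ∀ z, Ox O x y c z → NU O z := by
    rintro z ⟨α, hα, β, hβ, rfl⟩
    refine hloc _ _ (hpar.pu.mul_left hα) (NU.mul_left ?_ hβ)
    obtain ⟨c0, rfl⟩ : ∃ c0, c = c0 + 1 := ⟨c - 1, by omega⟩
    rw [pow_succ]
    exact hpar.pv.mul_left (O.pow_mem hyO c0)
  have nuF := nu_of _ oxF
  have nuG := nu_of _ oxG
  obtain ⟨od0, od1, od2, od3, od4⟩ := hod k E htr O x y hO hpar
  have hρ : ∃ ρ : ℕ, 1 ≤ ρ ∧ ((Od O x y ρ F ∧ Md O x y ρ G) ∨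
      (2 ≤ ρ ∧ Od O x y (ρ - 1) G ∧ Md O x y ρ F)) := by
    by_cases hF0 : F = 0
    · have hG0 : G ≠ 0 := by
        intro hG0
        apply hFG
        rw [hF0, hG0]
        have : Ox O x y (c + 1) 0 := ⟨0, O.zero_mem, 0, O.zero_mem, by simp⟩
        exact ⟨this, this⟩
      obtain ⟨l, hl⟩ := od0 G hGO hG0
      have := od_pos hl nuG
      refine ⟨l + 1, by omega, Or.inr ⟨by omega, by simpa using hl, ?_⟩⟩
      rw [hF0]
      exact md_zero _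
    · obtain ⟨l, hl⟩ := od0 F hFO hF0
      have hl1 := od_pos hl nuF
      by_cases hG0 : G = 0
      · refine ⟨l, hl1, Or.inl ⟨hl, ?_⟩⟩
        rw [hG0]
        exact md_zero _
      · obtain ⟨l', hl'⟩ := od0 G hGO hG0
        have hl1' := od_pos hl' nuG
        rcases le_or_gt l l' with h | h
        · exact ⟨l, hl1, Or.inl ⟨hl, od2 _ _ _ (od1 _ _ hl') h⟩⟩
        · refine ⟨l' + 1, by omega, Or.inr ⟨by omega, by simpa using hl', ?_⟩⟩
          exact od2 _ _ _ (od1 _ _ hl) h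
  obtain ⟨ρ, hρ1, hcase⟩ := hρ
  obtain ⟨P, hPd⟩ : ∃ P : E, P = F * (y ^ ρ)⁻¹ := ⟨_, rfl⟩
  obtain ⟨R, hRd⟩ : ∃ R : E, R = G * (y ^ (ρ - 1))⁻¹ := ⟨_, rfl⟩
  have hcO : ∀ {c : ℕ → E}, (∀ j, c j ∈ O) → ∀ j, c j ∈ O' := fun h j => hquad.le (h j)
  have hmd : ∀ {l : ℕ} {z : E}, Md O x y l z → z * (y ^ l)⁻¹ ∈ O' := by
    rintro l z ⟨c, hc, h1⟩
    rw [md_div hy0 h1]
    exact poly_mem (hcO hc) hsO'
  have hodn : ∀ {l : ℕ} {z : E}, Od O x y l z → ¬ Ox O' y (x / y) (l + 1) (z * (y ^ l)⁻¹) := by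
    rintro l z ⟨c, hc, ⟨j, hj, h2⟩, h1⟩
    rw [md_div hy0 h1]
    refine hqp k E htr O O' y x (x / y) hO hO' (par_symm hpar) hquad hpar' l
      (fun j => c (l - j)) (fun j => hc _) ⟨l - j, by omega, ?_⟩
    have : l - (l - j) = j := by omega
    simpa [this] using h2
  have hmdF : Md O x y ρ F := by
    rcases hcase with h | h
    · exact od1 _ _ h.1
    · exact h.2.2
  have hmdG : Md O x y (ρ - 1) G := by
    rcases hcase with h | h
    · exact od2 _ _ _ h.2 (by omega)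
    · exact od1 _ _ h.2.1
  have hP : P ∈ O' := by rw [hPd]; exact hmd hmdF
  have hR : R ∈ O' := by rw [hRd]; exact hmd hmdG
  have hii : ¬ (Ox O' y (x / y) (ρ + 1) P ∧ Ox O' y (x / y) (ρ + 1) R) := by
    rintro ⟨h1, h2⟩
    rcases hcase with h | h
    · exact hodn h.1 (hPd ▸ h1)
    · have h3 := hodn h.2.1
      rw [← hRd] at h3
      exact h3 (ox_mono hsO' (by omega) h2)
  have hyρ : ∀ n : ℕ, y ^ n ≠ 0 := fun n => pow_ne_zero n hy0
  have hiii : ¬ Ox O x y (c + 1) F → ρ ≤ c ∧ ¬ Ox O' (x / y) y (c + 1 - ρ) P := by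
    intro h1
    have h2 : ρ ≤ c := by
      by_contra h3
      exact h1 (od3 _ _ _ hmdF (by omega)).1
    refine ⟨h2, fun h3 => h1 ?_⟩
    refine hqs k E htr O O' x y hO hO' hpar hquad hpar' F hFO (c + 1) ?_
    obtain ⟨α, hα, β, hβ, h4⟩ := h3
    have h5 : F = P * y ^ ρ := by
      rw [hPd, mul_assoc, inv_mul_cancel₀ (hyρ _), mul_one]
    refine ⟨α * y ^ ρ, O'.mul_mem hα (O'.pow_mem hyO' _), β, hβ, ?_⟩
    have h6 : y ^ (c + 1) = y ^ (c + 1 - ρ) * y ^ ρ := by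
      rw [← pow_add]; congr 1; omega
    rw [h5, h4, h6]
    ring
  have hiv : ¬ Ox O x y (c + 1) G → ρ ≤ c + 1 ∧ ¬ Ox O' (x / y) y (c + 2 - ρ) R := by
    intro h1
    have h2 : ρ ≤ c + 1 := by
      by_contra h3
      exact h1 (od3 _ _ _ hmdG (by omega)).1
    refine ⟨h2, fun h3 => h1 ?_⟩
    refine hqs k E htr O O' x y hO hO' hpar hquad hpar' G hGO (c + 1) ?_
    obtain ⟨α, hα, β, hβ, h4⟩ := h3
    have h5 : G = R * y ^ (ρ - 1) := by
      rw [hRd, mul_assoc, inv_mul_cancel₀ (hyρ _), mul_one]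
    refine ⟨α * y ^ (ρ - 1), O'.mul_mem hα (O'.pow_mem hyO' _), β, hβ, ?_⟩
    have h6 : y ^ (c + 1) = y ^ (c + 2 - ρ) * y ^ (ρ - 1) := by
      rw [← pow_add]; congr 1; omega
    rw [h5, h4, h6]
    ring
  have hxs : x = y * (x / y) := by rw [mul_div_cancel₀ _ hy0]
  have hxm : x ^ m = y ^ m * (x / y) ^ m := by
    rw [← mul_zpow, ← hxs]
  have hxmm : x ^ (-m) * x ^ m = 1 := by
    rw [← zpow_add₀ hx0, neg_add_cancel, zpow_zero]
  have ev1 : (x • D1) f = y ^ (m + ρ) * (x / y) ^ m * P := by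
    have h1 : x * D1 f = F * x ^ m := by
      rw [hF, mul_assoc (x * D1 f), hxmm, mul_one]
    rw [Derivation.smul_apply, smul_eq_mul, h1, hxm, hPd, zpow_add₀ hy0, zpow_natCast]
    have := hyρ ρ
    field_simp
  have ev2 : (y • D2) f = y ^ (m + ρ) * (x / y) ^ m * R := by
    have h1 : D2 f = G * x ^ m := by
      rw [hG, mul_assoc, hxmm, mul_one]
    rw [Derivation.smul_apply, smul_eq_mul, h1, hxm, hRd, zpow_add₀ hy0, zpow_natCast]
    have h3 : y ^ ρ = y ^ (ρ - 1) * y := by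
      rw [← pow_succ, Nat.sub_add_cancel hρ1]
    have := hyρ (ρ - 1)
    rw [h3]
    field_simp
  obtain ⟨em, en, o1, o2, o3, o4⟩ := core hpar' hP hR ht2 ev1 ev2 (by
      rintro ⟨⟨d1, hd1, h1⟩, ⟨d2, hd2, h2⟩⟩
      exact hii ⟨h1 ▸ ox_of_mul hd1, h2 ▸ ox_of_mul hd2⟩) (by
      rintro ⟨⟨d1, hd1, h1⟩, ⟨d2, hd2, h2⟩⟩
      by_cases h3 : Ox O x y (c + 1) F
      · by_cases h4 : Ox O x y (c + 1) G
        · exact hFG ⟨h3, h4⟩
        · exact (hiv h4).2 (h2 ▸ ox_of_mul hd2)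
      · exact (hiii h3).2 (h1 ▸ ox_of_mul hd1)) hdat2
  have b1 : c' ≤ ρ := by
    by_contra h1
    exact hii ⟨ox_mono hsO' (by omega) o1, ox_mono hsO' (by omega) o2⟩
  have b2 : ¬ Ox O x y (c + 1) F → d' + ρ ≤ c := by
    intro h1
    obtain ⟨h2, h3⟩ := hiii h1
    by_contra h4
    exact h3 (ox_mono hyO' (by omega) o3)
  have b3 : ¬ Ox O x y (c + 1) G → d' + ρ ≤ c + 1 := by
    intro h1
    obtain ⟨h2, h3⟩ := hiv h1
    by_contra h4
    exact h3 (ox_mono hyO' (by omega) o4)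
  have b4 : d' + ρ ≤ c + 1 := by
    by_cases h3 : Ox O x y (c + 1) F
    · by_cases h4 : Ox O x y (c + 1) G
      · exact absurd ⟨h3, h4⟩ hFG
      · exact b3 h4
    · exact (b2 h3).trans (by omega)
  refine ⟨by omega, fun h => by omega, ?_⟩
  intro hc1 hc' hd' z hz
  have hρe : ρ = 1 := by omega
  subst hc1
  subst hρe
  have hF2 : Ox O x y (1 + 1) F := by
    by_contra h1
    have := b2 h1
    omega
  have hG2 : ¬ Ox O x y (1 + 1) G := fun h => hFG ⟨hF2, h⟩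
  have hunit : ∀ b ∈ O, ¬ NU O b → b ≠ 0 ∧ b⁻¹ ∈ O := fun b hb h => (not_NU_iff hb).1 h
  -- `G = α x + β y` with `β` a unit
  obtain ⟨α, hα, β, hβ, hGe⟩ := oxG
  rw [pow_one] at hGe
  have hβu : ¬ NU O β := by
    intro h1
    obtain ⟨β1, hβ1, β2, hβ2, h2⟩ := hpar.gen β h1
    apply hG2
    refine ⟨α + β1 * y, O.add_mem hα (O.mul_mem hβ1 hyO), β2, hβ2, ?_⟩
    rw [hGe, h2]
    ring
  obtain ⟨hβ0, hβi⟩ := hunit β hβ hβu
  have hβn : ¬ NU O' β := by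
    rw [not_NU_iff (hquad.le hβ)]
    exact ⟨hβ0, hquad.le hβi⟩
  obtain ⟨ε, hε⟩ : ∃ ε : E, ε = β + α * (x / y) := ⟨_, rfl⟩
  have hεO : ε ∈ O' := by
    rw [hε]; exact O'.add_mem (hquad.le hβ) (O'.mul_mem (hquad.le hα) hsO')
  have hεu : ¬ NU O' ε := by
    intro h1
    apply hβn
    have h2 : β = ε + -(α * (x / y)) := by rw [hε]; ring
    rw [h2]
    exact hloc' _ _ h1 (hpar'.pv.mul_left (hquad.le hα)).neg
  obtain ⟨hε0, hεi⟩ := (not_NU_iff hεO).1 hεu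
  have hRe : R = y * ε := by
    rw [hRd, hGe, hε]
    simp only [Nat.sub_self, pow_zero, inv_one, mul_one]
    field_simp
    ring
  -- `F = c0 x + c1 y`
  have hodF : Od O x y 1 F := by
    rcases hcase with h | h
    · exact h.1
    · exact absurd h.1 (by omega)
  obtain ⟨cc, hcc, ⟨j, hj, hju⟩, hFe⟩ := hodF
  have hFe' : F = cc 0 * x + cc 1 * y := by
    rw [hFe, Finset.sum_range_succ, Finset.sum_range_one]
    simp
  have hPe : P = cc 0 * (x / y) + cc 1 := by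
    rw [hPd, hFe', pow_one]
    field_simp
  have hPnu : NU O' P := by
    obtain ⟨a1, ha1, a2, ha2, h1⟩ := ox_mono hsO' hc' o1
    rw [h1, pow_one]
    exact hloc' _ _ (hpar'.pu.mul_left ha1) (hpar'.pv.mul_left ha2)
  have hc1nu' : NU O' (cc 1) := by
    have h2 : cc 1 = P + -(cc 0 * (x / y)) := by rw [hPe]; ring
    rw [h2]
    exact hloc' _ _ hPnu (hpar'.pv.mul_left (hquad.le (hcc 0))).neg
  have hc1nu : NU O (cc 1) := by
    by_contra h1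
    obtain ⟨h2, h3⟩ := hunit _ (hcc 1) h1
    exact not_NU_of_inv h2 (hquad.le h3) hc1nu'
  have hc0u : ¬ NU O (cc 0) := by
    have : j = 0 ∨ j = 1 := by omega
    rcases this with rfl | rfl
    · exact hju
    · exact absurd hc1nu hju
  obtain ⟨hc00, hc0i⟩ := hunit _ (hcc 0) hc0u
  have hediv := hquad.div _ hc1nu
  obtain ⟨e, he⟩ : ∃ e : E, e = cc 1 * y⁻¹ := ⟨_, rfl⟩
  rw [← he] at hediv
  have hc1e : cc 1 = y * e := by rw [he]; field_simp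
  -- decompose `z`
  obtain ⟨a1, ha1, a2, ha2, hze⟩ := hpar'.gen z hz
  have hc0i' := hquad.le hc0i
  -- θ1 = ε⁻¹ • (y • D2), θ2 = c0⁻¹ • (x • D1) - (c0⁻¹ * e * ε⁻¹) • (y • D2)
  refine ⟨(a2 * (cc 0)⁻¹) • (x • D1) + (a1 * ε⁻¹ - a2 * (cc 0)⁻¹ * e * ε⁻¹) • (y • D2),
    (ht2 _).2 ⟨_, O'.mul_mem ha2 hc0i', _, O'.sub_mem (O'.mul_mem ha1 hεi)
      (O'.mul_mem (O'.mul_mem (O'.mul_mem ha2 hc0i') hediv) hεi), rfl⟩, ?_⟩
  have evl : ∀ (a b : E) (Δ1 Δ2 : Derivation k E E), (a • Δ1 + b • Δ2) f = a * Δ1 f + b * Δ2 f :=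
    fun a b Δ1 Δ2 => by
      rw [Derivation.add_apply, Derivation.smul_apply, Derivation.smul_apply, smul_eq_mul,
        smul_eq_mul]
  rw [evl, ev1, ev2, em, en, hRe, hPe, hc1e, hze]
  have e1 : ε⁻¹ * ε = 1 := inv_mul_cancel₀ hε0
  have e2 : (cc 0)⁻¹ * cc 0 = 1 := inv_mul_cancel₀ hc00
  linear_combination (y ^ (m + ((1 : ℕ) : ℤ)) * (x / y) ^ m) * (a2 * (x / y) * e2 +
    (a1 * y - a2 * (cc 0)⁻¹ * e * y) * e1)

end Pool.Agent.W150.WD
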